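import Pool.Agent.H24.Ki3

set_option autoImplicit false

namespace Pool.Agent.Results.MP_e81a45_lc.NPComplete
open Pool.Agent.H11.PT Pool.Agent.H24.Ki

theorem result : ∀ k r : ℕ, 1 ≤ k → max 3 (k + 1) ≤ r → NPComplete (RegMIS k r) := main

end Pool.Agent.Results.MP_e81a45_lc.NPComplete
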